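import Pool.Agent.DWH.Main

/-!
# MP_a95d19_an: the Denjoy-Wolff property does not imply property (H)

All definitions are in `Pool/Agent/DWH/Defs.lean`: `kob` (Kobayashi distance), `horosphere`,
`PropertyH`, `targetSet`, `DenjoyWolff`, `NoDisc`.
-/

open Set Filter Topology Metric Pool.Agent.DWH

/-- There is a bounded convex domain in `ℂ²` without analytic discs in the boundary which has the
Denjoy-Wolff property, but not property (H): some sequential horosphere has (at least) two boundary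
points in its closure. -/
theorem Pool.Agent.Results.MP_a95d19_an.DenjoyWolffNotH.result :
    ∃ Ω : Set (Fin 2 → ℂ), IsOpen Ω ∧ Convex ℝ Ω ∧ Bornology.IsBounded Ω ∧
    Ω.Nonempty ∧ NoDisc (frontier Ω) ∧ DenjoyWolff Ω ∧ ¬ PropertyH Ω ∧
    ∃ z₀ ∈ Ω, ∃ z : ℕ → Fin 2 → ℂ, (∀ n, z n ∈ Ω) ∧
      ∃ p ∈ frontier Ω, Tendsto z atTop (𝓝 p) ∧ ∃ R : ℝ, 0 < R ∧
      ∃ q₁ ∈ closure (horosphere Ω z₀ z R) ∩ frontier Ω,
      ∃ q₂ ∈ closure (horosphere Ω z₀ z R) ∩ frontier Ω, q₁ ≠ q₂ :=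
  Pool.Agent.DWH.main
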